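import Pool.Agent.J6H23.TC.Dens

/-!
# The upper density of the sums of three cubes is smaller than `Γ(4/3)³ / 6`
-/

set_option autoImplicit false

namespace Pool.Agent.Results.MP_225355_nt.BelowTrivialBound

open Pool.Agent.J6H23.TC

/-- The number of the integers `n` with `1 ≤ n ≤ x` which are sums of three nonnegative cubes. -/
noncomputable def N (x : ℝ) : ℕ :=
  {n : ℕ | 1 ≤ n ∧ (n : ℝ) ≤ x ∧ ∃ a b c : ℕ, n = a ^ 3 + b ^ 3 + c ^ 3}.ncard

/-- The constant of the trivial bound. -/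
noncomputable def C : ℝ := Real.Gamma (4 / 3) ^ 3 / 6

/-- The sum over the residue classes `r` modulo `q` of the smaller one of the density `1 / q` of the
class and of the density `C M(q, r) / q³` of the triples with sum in the class. -/
noncomputable def bound (q : ℕ) : ℝ :=
  ∑ r ∈ Finset.range q, min (1 / (q : ℝ)) (C * M q r / (q : ℝ) ^ 3)

theorem C_pos : 0 < C := by
  have := Real.Gamma_pos_of_pos (show (0 : ℝ) < 4 / 3 by norm_num)
  unfold C
  positivity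

theorem bound_nonneg (q : ℕ) : 0 ≤ bound q := by
  have := C_pos
  exact Finset.sum_nonneg fun r _ => le_min (by positivity) (by positivity)

theorem N_floor {x : ℝ} (hx : 0 ≤ x) : N x = N (⌊x⌋₊ : ℝ) := by
  unfold N
  congr 1
  ext n
  simp only [Set.mem_ofPred_eq]
  rw [Nat.cast_le, Nat.le_floor_iff hx]

theorem N_le_sum (q X : ℕ) (hq : 0 < q) : N (X : ℝ) ≤ ∑ r ∈ Finset.range q, (S q r X).card := by
  classical
  unfold N
  have hsub : {n : ℕ | 1 ≤ n ∧ (n : ℝ) ≤ (X : ℝ) ∧ ∃ a b c : ℕ, n = a ^ 3 + b ^ 3 + c ^ 3} ⊆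
      (((Finset.range q).biUnion fun r => S q r X : Finset ℕ) : Set ℕ) := by
    rintro n ⟨h1, h2, a, b, c, h3⟩
    rw [Finset.mem_coe, Finset.mem_biUnion]
    refine ⟨n % q, Finset.mem_range.mpr (Nat.mod_lt _ hq), ?_⟩
    unfold S
    rw [Finset.mem_filter, Finset.mem_Icc]
    refine ⟨⟨h1, by exact_mod_cast h2⟩, rfl, ![a, b, c], ?_⟩
    rw [Fin.sum_univ_three, h3]
    simp
  refine le_trans (Set.ncard_le_ncard hsub (Finset.finite_toSet _)) ?_
  rw [Set.ncard_coe_finset]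
  exact Finset.card_biUnion_le

/-- The bound for `N (X) / X` as a function of `u = X ^ (-1/3)`. -/
noncomputable def G (q : ℕ) (u : ℝ) : ℝ :=
  ∑ r ∈ Finset.range q, min (1 / (q : ℝ) + u ^ 3)
    (C * M q r * (1 / (q : ℝ) + 2 * u) ^ 3 + u * (1 + u) ^ 2)

theorem G_zero (q : ℕ) : G q 0 = bound q := by
  unfold G bound
  refine Finset.sum_congr rfl fun r _ => ?_
  congr 1
  · ring
  · ring

theorem continuous_G (q : ℕ) : Continuous (G q) := by
  unfold G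
  refine continuous_finsetSum _ fun r _ => Continuous.min ?_ ?_
  · fun_prop
  · fun_prop

theorem N_le_G (q X : ℕ) (hq : 0 < q) (hX : 0 < X) :
    (N (X : ℝ) : ℝ) ≤ G q (((X : ℝ) ^ (1 / (3 : ℝ)))⁻¹) * X := by
  have hX' : (0 : ℝ) < X := by exact_mod_cast hX
  have hq' : (0 : ℝ) < q := by exact_mod_cast hq
  set t : ℝ := (X : ℝ) ^ (1 / (3 : ℝ)) with ht
  have htpos : 0 < t := Real.rpow_pos_of_pos hX' _
  have ht3 : t ^ 3 = X := by
    rw [ht, ← Real.rpow_natCast, ← Real.rpow_mul hX'.le]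
    norm_num
  have h1 : (N (X : ℝ) : ℝ) ≤ ∑ r ∈ Finset.range q, ((S q r X).card : ℝ) := by
    exact_mod_cast N_le_sum q X hq
  refine le_trans h1 ?_
  unfold G
  rw [Finset.sum_mul]
  refine Finset.sum_le_sum fun r _ => ?_
  rw [min_mul_of_nonneg _ _ hX'.le]
  refine le_min ?_ ?_
  · have h2 : ((S q r X).card : ℝ) ≤ ((X / q + 1 : ℕ) : ℝ) := by exact_mod_cast card_S_le_div q r X
    have h3 : ((X / q + 1 : ℕ) : ℝ) ≤ (X : ℝ) / q + 1 := by
      rw [Nat.cast_add, Nat.cast_one]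
      have := @Nat.cast_div_le ℝ _ _ _ X q
      linarith
    refine le_trans h2 (le_trans h3 (le_of_eq ?_))
    rw [← ht3]
    field_simp
  · refine le_trans (card_S_le q r X hq) (le_of_eq ?_)
    rw [← ht, ← ht3]
    unfold C
    field_simp

/-- **The upper density of the sums of three cubes.** (1) For each modulus `q` the upper density of
the sums of three nonnegative cubes is at most `bound q`. (2) An estimate of this bound for the
moduli `8 ^ j`. (3) Hence the upper density is smaller than `C = Γ(4/3)³ / 6`. -/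
theorem result :
    (∀ q : ℕ, 0 < q → ∀ c : ℝ, bound q < c → ∃ x₀ : ℝ, ∀ x : ℝ, x₀ ≤ x → (N x : ℝ) ≤ c * x) ∧
    (∀ j : ℕ, bound (8 ^ j) ≤ C - (C * j / 4 - 1) / 8 ^ j) ∧
    (∃ c : ℝ, c < C ∧ ∃ x₀ : ℝ, ∀ x : ℝ, x₀ ≤ x → (N x : ℝ) ≤ c * x) := by
  have part1 : ∀ q : ℕ, 0 < q → ∀ c : ℝ, bound q < c →
      ∃ x₀ : ℝ, ∀ x : ℝ, x₀ ≤ x → (N x : ℝ) ≤ c * x := by
    intro q hq c hc
    have hcpos : 0 < c := lt_of_le_of_lt (bound_nonneg q) hc
    have hu : Filter.Tendsto (fun X : ℕ => ((X : ℝ) ^ (1 / (3 : ℝ)))⁻¹) Filter.atTop (nhds 0) :=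
      tendsto_inv_atTop_zero.comp ((tendsto_rpow_atTop (by norm_num : (0 : ℝ) < 1 / 3)).comp
        tendsto_natCast_atTop_atTop)
    have hG : Filter.Tendsto (fun X : ℕ => G q (((X : ℝ) ^ (1 / (3 : ℝ)))⁻¹)) Filter.atTop
        (nhds (bound q)) := by
      rw [← G_zero]
      exact ((continuous_G q).tendsto 0).comp hu
    obtain ⟨X₀, hX₀⟩ := Filter.eventually_atTop.mp (hG.eventually_lt_const hc)
    refine ⟨(X₀ : ℝ) + 1, fun x hx => ?_⟩
    have hx0 : (0 : ℝ) ≤ x := le_trans (by positivity) hx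
    have hfl : X₀ + 1 ≤ ⌊x⌋₊ := Nat.le_floor (by push_cast; exact hx)
    rw [N_floor hx0]
    refine le_trans (N_le_G q ⌊x⌋₊ hq (by omega)) ?_
    have h1 := hX₀ ⌊x⌋₊ (by omega)
    have h2 : ((⌊x⌋₊ : ℕ) : ℝ) ≤ x := Nat.floor_le hx0
    calc G q ((((⌊x⌋₊ : ℕ) : ℝ) ^ (1 / (3 : ℝ)))⁻¹) * ((⌊x⌋₊ : ℕ) : ℝ)
        ≤ c * ((⌊x⌋₊ : ℕ) : ℝ) := mul_le_mul_of_nonneg_right h1.le (Nat.cast_nonneg _)
      _ ≤ c * x := mul_le_mul_of_nonneg_left h2 hcpos.le
  have part2 : ∀ j : ℕ, bound (8 ^ j) ≤ C - (C * j / 4 - 1) / 8 ^ j := by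
    intro j
    have hqpos : (0 : ℝ) < (8 : ℝ) ^ j := by positivity
    have hsum : ∑ r ∈ Finset.range (8 ^ j), C * (M (8 ^ j) r : ℝ) / (((8 ^ j : ℕ) : ℝ)) ^ 3 = C := by
      rw [← Finset.sum_div, ← Finset.mul_sum, ← Nat.cast_sum, sum_M _ (by positivity)]
      push_cast
      field_simp
    have h0 : (0 : ℕ) ∈ Finset.range (8 ^ j) := Finset.mem_range.mpr (by positivity)
    have hM : (j : ℝ) * 64 ^ j ≤ 4 * (M (8 ^ j) 0 : ℝ) := by exact_mod_cast M_zero_ge j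
    have hsplit := Finset.add_sum_erase (Finset.range (8 ^ j))
      (fun r => C * (M (8 ^ j) r : ℝ) / (((8 ^ j : ℕ) : ℝ)) ^ 3) h0
    unfold bound
    rw [← Finset.add_sum_erase _ _ h0]
    have h1 : min (1 / (((8 ^ j : ℕ) : ℝ))) (C * (M (8 ^ j) 0 : ℝ) / (((8 ^ j : ℕ) : ℝ)) ^ 3) ≤
        1 / 8 ^ j := by
      refine le_trans (min_le_left _ _) (le_of_eq ?_)
      push_cast
      rfl
    have h2 : ∑ r ∈ (Finset.range (8 ^ j)).erase 0,
        min (1 / (((8 ^ j : ℕ) : ℝ))) (C * (M (8 ^ j) r : ℝ) / (((8 ^ j : ℕ) : ℝ)) ^ 3) ≤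
        ∑ r ∈ (Finset.range (8 ^ j)).erase 0, C * (M (8 ^ j) r : ℝ) / (((8 ^ j : ℕ) : ℝ)) ^ 3 :=
      Finset.sum_le_sum fun r _ => min_le_right _ _
    rw [hsum] at hsplit
    have h3 : C * j / 4 / 8 ^ j ≤ C * (M (8 ^ j) 0 : ℝ) / (((8 ^ j : ℕ) : ℝ)) ^ 3 := by
      have h64 : (64 : ℝ) ^ j = 8 ^ j * 8 ^ j := by rw [← mul_pow]; norm_num
      rw [h64] at hM
      push_cast
      rw [div_div, div_le_div_iff₀ (by positivity) (by positivity)]
      have hC := C_pos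
      have h4 : C * (j * (8 ^ j * 8 ^ j)) ≤ C * (4 * (M (8 ^ j) 0 : ℝ)) :=
        mul_le_mul_of_nonneg_left hM hC.le
      nlinarith [mul_le_mul_of_nonneg_left h4 hqpos.le]
    have h5 : (C * j / 4 - 1) / 8 ^ j = C * j / 4 / 8 ^ j - 1 / 8 ^ j := by ring
    rw [h5]
    linarith
  refine ⟨part1, part2, ?_⟩
  obtain ⟨j, hj⟩ := exists_nat_gt (4 / C)
  have hC := C_pos
  have h1 : 4 < C * j := by
    rw [div_lt_iff₀ hC] at hj
    linarith
  have h2 : 0 < (C * j / 4 - 1) / 8 ^ j := div_pos (by linarith) (by positivity)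
  have h3 := part2 j
  refine ⟨C - (C * j / 4 - 1) / 8 ^ j / 2, by linarith, ?_⟩
  exact part1 (8 ^ j) (by positivity) _ (by linarith)

end Pool.Agent.Results.MP_225355_nt.BelowTrivialBound
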